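import Pool.Agent.H96R3.BC.Stmts

/-! Task SUM of the project BIGCOEF. -/

set_option autoImplicit false

open Finset

namespace Pool.Agent.H782R3.BCSum

open Pool.Agent.H96R3.BC

theorem pow_up (x : ℝ) (hx : 0 ≤ x) (n : ℕ) :
    (x + 1) ^ (n + 1) - x ^ (n + 1) ≤ (n + 1) * (x + 1) ^ n := by
  induction n with
  | zero => simp
  | succ n ih =>
    have h1 : x ^ (n + 1) ≤ (x + 1) ^ (n + 1) := pow_le_pow_left₀ hx (by linarith) _
    have h2 := mul_le_mul_of_nonneg_left ih (by linarith : (0:ℝ) ≤ x + 1)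
    have h3 : (x + 1) ^ (n + 1 + 1) - x ^ (n + 1 + 1) =
        (x + 1) * ((x + 1) ^ (n + 1) - x ^ (n + 1)) + x ^ (n + 1) := by ring
    rw [h3]
    push_cast
    calc (x + 1) * ((x + 1) ^ (n + 1) - x ^ (n + 1)) + x ^ (n + 1)
        ≤ (x + 1) * ((n + 1) * (x + 1) ^ n) + (x + 1) ^ (n + 1) := add_le_add h2 h1
      _ = _ := by ring

theorem pow_lo (x : ℝ) (hx : 0 ≤ x) (n : ℕ) :
    (n + 1) * x ^ n ≤ (x + 1) ^ (n + 1) - x ^ (n + 1) := by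
  induction n with
  | zero => simp
  | succ n ih =>
    have h2 := mul_le_mul_of_nonneg_left ih (by linarith : (0:ℝ) ≤ x + 1)
    have h3 : (x + 1) ^ (n + 1 + 1) - x ^ (n + 1 + 1) =
        (x + 1) * ((x + 1) ^ (n + 1) - x ^ (n + 1)) + x ^ (n + 1) := by ring
    rw [h3]
    push_cast
    have h4 : 0 ≤ (n + 1 : ℝ) * x ^ n := by positivity
    nlinarith [h2, h4, pow_succ x n]

theorem card_CC (Q j : ℕ) : ((CC Q j).card : ℝ) = ((j : ℝ) + 1) ^ (2 * Q) - (j : ℝ) ^ (2 * Q) := by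
  unfold CC
  rw [Nat.card_Ioc, Nat.cast_sub (Nat.pow_le_pow_left (by omega) _)]
  push_cast
  rfl

theorem card_up (q j : ℕ) (hj : 1 ≤ j) :
    ((CC (q + 1) j).card : ℝ) ≤ (q + 1) * 4 ^ (q + 1) * (Real.sqrt j) ^ (4 * q + 2) := by
  have hj' : (1:ℝ) ≤ j := by exact_mod_cast hj
  have hs : (Real.sqrt j) ^ (4 * q + 2) = (j : ℝ) ^ (2 * q + 1) := by
    rw [show 4 * q + 2 = 2 * (2 * q + 1) by ring, pow_mul, Real.sq_sqrt (by positivity)]
  rw [card_CC, hs, show 2 * (q + 1) = (2 * q + 1) + 1 by ring]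
  have h1 := pow_up (j : ℝ) (by positivity) (2 * q + 1)
  refine h1.trans ?_
  push_cast
  have h2 : ((j : ℝ) + 1) ^ (2 * q + 1) ≤ (2 * j) ^ (2 * q + 1) :=
    pow_le_pow_left₀ (by positivity) (by linarith) _
  calc (2 * (q : ℝ) + 1 + 1) * ((j : ℝ) + 1) ^ (2 * q + 1)
      ≤ (2 * (q : ℝ) + 1 + 1) * (2 * j) ^ (2 * q + 1) :=
        mul_le_mul_of_nonneg_left h2 (by positivity)
    _ = (q + 1) * 4 ^ (q + 1) * (j : ℝ) ^ (2 * q + 1) := by
        rw [mul_pow, show (4 : ℝ) = 2 ^ 2 by norm_num, ← pow_mul]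
        ring

theorem card_lo (q j : ℕ) :
    2 * (q + 1) * (Real.sqrt j) ^ (4 * q + 2) ≤ ((CC (q + 1) j).card : ℝ) := by
  have hs : (Real.sqrt j) ^ (4 * q + 2) = (j : ℝ) ^ (2 * q + 1) := by
    rw [show 4 * q + 2 = 2 * (2 * q + 1) by ring, pow_mul, Real.sq_sqrt (by positivity)]
  rw [card_CC, hs, show 2 * (q + 1) = (2 * q + 1) + 1 by ring]
  have h1 := pow_lo (j : ℝ) (by positivity) (2 * q + 1)
  refine le_trans (le_of_eq ?_) h1
  push_cast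
  ring

/-- the crude tail sum -/
theorem tail (j₀ : ℕ) (hj₀ : 2 ≤ j₀) (K : ℝ) (f : ℕ → ℝ) (hf0 : ∀ i, 0 ≤ f i)
    (hf : ∀ i, f i ≤ K / ((j₀ + i : ℕ) : ℝ) ^ 2) :
    Summable f ∧ ∑' i, f i ≤ 2 * K / j₀ := by
  have hj : (2:ℝ) ≤ j₀ := by exact_mod_cast hj₀
  have hK : 0 ≤ K := by
    have h := (hf0 0).trans (hf 0)
    have hp : (0:ℝ) < ((j₀ + 0 : ℕ) : ℝ) ^ 2 := by push_cast; positivity
    by_contra hneg
    exact absurd h (not_le.2 (div_neg_of_neg_of_pos (not_le.1 hneg) hp))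
  have hpart : ∀ n, ∑ i ∈ range n, f i ≤ K * (1 / ((j₀ : ℝ) - 1) - 1 / ((j₀ : ℝ) + n - 1)) := by
    intro n
    induction n with
    | zero => simp
    | succ n ih =>
      rw [sum_range_succ]
      have hn : (0:ℝ) ≤ n := Nat.cast_nonneg n
      have h1 : f n ≤ K * (1 / ((j₀ : ℝ) + n - 1) - 1 / ((j₀ : ℝ) + n)) := by
        refine (hf n).trans ?_
        rw [div_eq_mul_one_div]
        refine mul_le_mul_of_nonneg_left ?_ hK
        push_cast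
        rw [div_sub_div _ _ (by linarith) (by linarith), div_le_div_iff₀ (by positivity)
          (mul_pos (by linarith) (by linarith))]
        nlinarith
      push_cast
      calc ∑ i ∈ range n, f i + f n
          ≤ K * (1 / ((j₀ : ℝ) - 1) - 1 / ((j₀ : ℝ) + n - 1)) +
            K * (1 / ((j₀ : ℝ) + n - 1) - 1 / ((j₀ : ℝ) + n)) := add_le_add ih h1
        _ = _ := by ring
  have hbd : ∀ n, ∑ i ∈ range n, f i ≤ 2 * K / j₀ := by
    intro n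
    refine (hpart n).trans ?_
    have hn : (0:ℝ) ≤ n := Nat.cast_nonneg n
    have h1 : 1 / ((j₀ : ℝ) - 1) - 1 / ((j₀ : ℝ) + n - 1) ≤ 1 / ((j₀ : ℝ) - 1) := by
      have : 0 ≤ 1 / ((j₀ : ℝ) + n - 1) := by
        apply div_nonneg zero_le_one; linarith
      linarith
    have h2 : 1 / ((j₀ : ℝ) - 1) ≤ 2 / j₀ := by
      rw [div_le_div_iff₀ (by linarith) (by linarith)]
      linarith
    calc K * (1 / ((j₀ : ℝ) - 1) - 1 / ((j₀ : ℝ) + n - 1)) ≤ K * (2 / j₀) :=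
          mul_le_mul_of_nonneg_left (h1.trans h2) hK
      _ = 2 * K / j₀ := by ring
  exact ⟨summable_of_sum_range_le hf0 hbd, Real.tsum_le_of_sum_range_le hf0 hbd⟩


section pointwise
variable {a b U' h c K : ℝ} {q : ℕ}

theorem t1 (hb : 1 ≤ b) (hab : b ≤ a) (hU0 : 0 ≤ U') (hU : U' ≤ 2 * (a / b)) (hh0 : 0 ≤ h)
    (hh : h ≤ 1 / (a * b)) (hc0 : 0 ≤ c) (hc : c ≤ K * a ^ (4 * q + 2)) :
    c * U' ^ 2 * h ^ (2 * (q + 1) + 1) / (a / b) ^ (3 * (q + 1) + 2) ≤ 4 * K / a ^ 4 := by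
  have hb0 : 0 < b := by linarith
  have ha0 : 0 < a := by linarith
  have hK : 0 ≤ K := by
    by_contra hneg
    have : K * a ^ (4 * q + 2) < 0 := mul_neg_of_neg_of_pos (not_le.1 hneg) (by positivity)
    linarith
  have h1 : c * U' ^ 2 * h ^ (2 * (q + 1) + 1) / (a / b) ^ (3 * (q + 1) + 2) ≤
      (K * a ^ (4 * q + 2)) * (2 * (a / b)) ^ 2 * (1 / (a * b)) ^ (2 * (q + 1) + 1) /
        (a / b) ^ (3 * (q + 1) + 2) := by gcongr
  have h2 : (K * a ^ (4 * q + 2)) * (2 * (a / b)) ^ 2 * (1 / (a * b)) ^ (2 * (q + 1) + 1) /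
        (a / b) ^ (3 * (q + 1) + 2) = 4 * K / a ^ 4 * (b / a) ^ q := by
    simp only [div_pow, mul_pow, one_pow]
    field_simp
    ring
  have h3 : (b / a) ^ q ≤ 1 := pow_le_one₀ (by positivity) ((div_le_one ha0).2 hab)
  rw [h2] at h1
  refine h1.trans ?_
  exact mul_le_of_le_one_right (by positivity) h3

theorem t2 (hb : 1 ≤ b) (hab : b ≤ a) (hU0 : 0 ≤ U') (hU : U' ≤ 2 * (a / b)) (hh0 : 0 ≤ h)
    (hh : h ≤ 1 / (a * b)) :
    h * U' ^ (3 * (q + 1) + 2) * h ^ (2 * (q + 1) + 1) / (a / b) ^ (3 * (q + 1) + 2) ≤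
      2 ^ (3 * q + 5) / a ^ 4 := by
  have hb0 : 0 < b := by linarith
  have ha0 : 0 < a := by linarith
  have h1 : h * U' ^ (3 * (q + 1) + 2) * h ^ (2 * (q + 1) + 1) / (a / b) ^ (3 * (q + 1) + 2) ≤
      (1 / (a * b)) * (2 * (a / b)) ^ (3 * (q + 1) + 2) * (1 / (a * b)) ^ (2 * (q + 1) + 1) /
        (a / b) ^ (3 * (q + 1) + 2) := by gcongr
  have h2 : (1 / (a * b)) * (2 * (a / b)) ^ (3 * (q + 1) + 2) * (1 / (a * b)) ^ (2 * (q + 1) + 1) /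
        (a / b) ^ (3 * (q + 1) + 2) = 2 ^ (3 * q + 5) / a ^ 4 * ((1 / a) ^ (2 * q) * (1 / b) ^ (2 * q + 4)) := by
    simp only [div_pow, mul_pow, one_pow]
    field_simp
    ring
  have h3 : (1 / a) ^ (2 * q) ≤ 1 := pow_le_one₀ (by positivity) ((div_le_one ha0).2 (by linarith))
  have h4 : (1 / b) ^ (2 * q + 4) ≤ 1 := pow_le_one₀ (by positivity) ((div_le_one hb0).2 (by linarith))
  rw [h2] at h1
  refine h1.trans ?_
  exact mul_le_of_le_one_right (by positivity) (mul_le_one₀ h3 (by positivity) h4)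

theorem t3 (hb : 1 ≤ b) (hab : b ≤ a) (hU0 : 0 ≤ U') (hU : U' ≤ 2 * (a / b)) (hh0 : 0 ≤ h)
    (hh : h ≤ 1 / (a * b)) (hc0 : 0 ≤ c) (hc : c ≤ K * a ^ (4 * q + 2)) :
    c * U' ^ 2 * h ^ (4 * (q + 1) + 4) ≤ 4 * K / a ^ 4 := by
  have hb0 : 0 < b := by linarith
  have ha0 : 0 < a := by linarith
  have hK : 0 ≤ K := by
    by_contra hneg
    have : K * a ^ (4 * q + 2) < 0 := mul_neg_of_neg_of_pos (not_le.1 hneg) (by positivity)
    linarith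
  have h1 : c * U' ^ 2 * h ^ (4 * (q + 1) + 4) ≤
      (K * a ^ (4 * q + 2)) * (2 * (a / b)) ^ 2 * (1 / (a * b)) ^ (4 * (q + 1) + 4) := by gcongr
  have h2 : (K * a ^ (4 * q + 2)) * (2 * (a / b)) ^ 2 * (1 / (a * b)) ^ (4 * (q + 1) + 4) =
      4 * K / a ^ 4 * (1 / b) ^ (4 * q + 10) := by
    simp only [div_pow, mul_pow, one_pow]
    field_simp
    ring
  have h4 : (1 / b) ^ (4 * q + 10) ≤ 1 := pow_le_one₀ (by positivity) ((div_le_one hb0).2 (by linarith))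
  rw [h2] at h1
  refine h1.trans ?_
  exact mul_le_of_le_one_right (by positivity) h4

theorem t4 (hb : 1 ≤ b) (hab : b ≤ a) (hU0 : 0 ≤ U') (hU : U' ≤ 2 * (a / b)) (hh0 : 0 ≤ h)
    (hh : h ≤ 1 / (a * b)) :
    h * U' ^ (3 * (q + 1) + 2) * h ^ (4 * (q + 1) + 4) ≤ 2 ^ (3 * q + 5) / a ^ 4 := by
  have hb0 : 0 < b := by linarith
  have ha0 : 0 < a := by linarith
  have h1 : h * U' ^ (3 * (q + 1) + 2) * h ^ (4 * (q + 1) + 4) ≤
      (1 / (a * b)) * (2 * (a / b)) ^ (3 * (q + 1) + 2) * (1 / (a * b)) ^ (4 * (q + 1) + 4) := by gcongr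
  have h2 : (1 / (a * b)) * (2 * (a / b)) ^ (3 * (q + 1) + 2) * (1 / (a * b)) ^ (4 * (q + 1) + 4) =
      2 ^ (3 * q + 5) / a ^ 4 * ((1 / a) ^ q * (1 / b) ^ (7 * q + 14)) := by
    simp only [div_pow, mul_pow, one_pow]
    field_simp
    ring
  have h3 : (1 / a) ^ q ≤ 1 := pow_le_one₀ (by positivity) ((div_le_one ha0).2 (by linarith))
  have h4 : (1 / b) ^ (7 * q + 14) ≤ 1 := pow_le_one₀ (by positivity) ((div_le_one hb0).2 (by linarith))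
  rw [h2] at h1
  refine h1.trans ?_
  exact mul_le_of_le_one_right (by positivity) (mul_le_one₀ h3 (by positivity) h4)

theorem t5 {lj l0 : ℝ} (hq : 6 ≤ q) (hb : 1 ≤ b) (hab : b ≤ a) (hU0 : 0 ≤ U') (hU : U' ≤ 2 * (a / b))
    (hh0 : 0 ≤ h) (hh : h ≤ 1 / (a * b)) (hc : 2 * (q + 1) * a ^ (4 * q + 2) ≤ c)
    (hl0 : 0 ≤ l0) (hlj0 : 0 ≤ lj) (hl : lj ≤ (a / b) ^ 2 * l0) :
    h * U' ^ (3 * (q + 1) + 2) * lj ^ 3 * (b ^ 2) ^ (2 * (q + 1)) ≤
      2 ^ (3 * q + 5) * c * (a / b) ^ 2 * l0 ^ 3 := by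
  have hb0 : 0 < b := by linarith
  have ha0 : 0 < a := by linarith
  have h1 : h * U' ^ (3 * (q + 1) + 2) * lj ^ 3 * (b ^ 2) ^ (2 * (q + 1)) ≤
      (1 / (a * b)) * (2 * (a / b)) ^ (3 * (q + 1) + 2) * ((a / b) ^ 2 * l0) ^ 3 *
        (b ^ 2) ^ (2 * (q + 1)) := by gcongr
  obtain ⟨r, rfl⟩ := Nat.exists_eq_add_of_le hq
  have h2 : (1 / (a * b)) * (2 * (a / b)) ^ (3 * (6 + r + 1) + 2) * ((a / b) ^ 2 * l0) ^ 3 *
        (b ^ 2) ^ (2 * (6 + r + 1)) =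
      2 ^ (3 * (6 + r) + 5) * a ^ (4 * (6 + r) + 2) * (a / b) ^ 2 * l0 ^ 3 * (b / a) ^ r := by
    simp only [div_pow, mul_pow, one_pow]
    field_simp
    ring
  have h3 : (b / a) ^ r ≤ 1 := pow_le_one₀ (by positivity) ((div_le_one ha0).2 hab)
  rw [h2] at h1
  refine h1.trans ?_
  have h5 : a ^ (4 * (6 + r) + 2) ≤ c := by
    refine le_trans ?_ hc
    have h6 : (1:ℝ) ≤ 2 * (((6 + r : ℕ) : ℝ) + 1) := by push_cast; nlinarith [(Nat.cast_nonneg r : (0:ℝ) ≤ r)]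
    exact le_mul_of_one_le_left (by positivity) h6
  calc 2 ^ (3 * (6 + r) + 5) * a ^ (4 * (6 + r) + 2) * (a / b) ^ 2 * l0 ^ 3 * (b / a) ^ r
      ≤ 2 ^ (3 * (6 + r) + 5) * a ^ (4 * (6 + r) + 2) * (a / b) ^ 2 * l0 ^ 3 :=
        mul_le_of_le_one_right (by positivity) h3
    _ ≤ 2 ^ (3 * (6 + r) + 5) * c * (a / b) ^ 2 * l0 ^ 3 := by gcongr

end pointwise


/-- the facts on a cell -/
theorem cell (j₀ j : ℕ) (h₀ : 3 ≤ j₀) (hj : j₀ ≤ j) :
    1 ≤ Real.sqrt j₀ ∧ Real.sqrt j₀ ≤ Real.sqrt j ∧ UU j₀ j = Real.sqrt j / Real.sqrt j₀ ∧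
    0 ≤ UU j₀ (j + 1) ∧ UU j₀ (j + 1) ≤ 2 * (Real.sqrt j / Real.sqrt j₀) ∧
    0 ≤ UU j₀ (j + 1) - UU j₀ j ∧
    UU j₀ (j + 1) - UU j₀ j ≤ 1 / (Real.sqrt j * Real.sqrt j₀) ∧
    Real.sqrt j ^ 4 = (j : ℝ) ^ 2 := by
  have h3 : (3:ℝ) ≤ j₀ := by exact_mod_cast h₀
  have hj' : (j₀:ℝ) ≤ j := by exact_mod_cast hj
  have hb1 : 1 ≤ Real.sqrt j₀ := Real.one_le_sqrt.2 (by linarith)
  have hab : Real.sqrt j₀ ≤ Real.sqrt j := Real.sqrt_le_sqrt hj'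
  have ha1 : 1 ≤ Real.sqrt j := hb1.trans hab
  have hb0 : 0 < Real.sqrt j₀ := by linarith
  have ha0 : 0 < Real.sqrt j := by linarith
  have hsq : Real.sqrt j ^ 2 = j := Real.sq_sqrt (Nat.cast_nonneg j)
  have hU : UU j₀ j = Real.sqrt j / Real.sqrt j₀ := Real.sqrt_div (Nat.cast_nonneg j) _
  have hU1 : UU j₀ (j + 1) = Real.sqrt ((j : ℝ) + 1) / Real.sqrt j₀ := by
    unfold UU
    push_cast
    exact Real.sqrt_div (by positivity) _
  have e1 : Real.sqrt ((j : ℝ) + 1) ≤ 2 * Real.sqrt j :=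
    Real.sqrt_le_iff.2 ⟨by positivity, by rw [mul_pow, hsq]; nlinarith⟩
  have e2 : Real.sqrt j ≤ Real.sqrt ((j : ℝ) + 1) := Real.sqrt_le_sqrt (by linarith)
  have e3 : Real.sqrt ((j : ℝ) + 1) ≤ Real.sqrt j + 1 / Real.sqrt j := by
    refine Real.sqrt_le_iff.2 ⟨by positivity, ?_⟩
    have e4 : (Real.sqrt j + 1 / Real.sqrt j) ^ 2 = Real.sqrt j ^ 2 + 2 + (1 / Real.sqrt j) ^ 2 := by
      field_simp
      ring
    rw [e4, hsq]
    nlinarith [sq_nonneg (1 / Real.sqrt j)]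
  refine ⟨hb1, hab, hU, ?_, ?_, ?_, ?_, ?_⟩
  · rw [hU1]; positivity
  · rw [hU1, mul_div_assoc']
    gcongr
  · rw [hU1, hU, ← sub_div]
    exact div_nonneg (by linarith) hb0.le
  · rw [hU1, hU, ← sub_div, ← div_div]
    exact div_le_div_of_nonneg_right (by linarith) hb0.le
  · rw [show (4:ℕ) = 2 * 2 by norm_num, pow_mul, hsq]

theorem taskSum : TaskSum := by
  refine ⟨7, fun Q hQ => ?_⟩
  obtain ⟨q, rfl⟩ : ∃ q, Q = q + 1 := ⟨Q - 1, by omega⟩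
  have hq : 6 ≤ q := by omega
  set K : ℝ := ((q : ℝ) + 1) * 4 ^ (q + 1) with hKdef
  have hK : 0 < K := by positivity
  set L : ℝ := 2 ^ (3 * q + 5) with hLdef
  have hL : 0 < L := by positivity
  refine ⟨8 * K + 2 * L, by positivity, 3, fun j₀ h₀ => ?_⟩
  have h3 : (3:ℝ) ≤ j₀ := by exact_mod_cast h₀
  have hj1 : ∀ x : ℝ, 0 ≤ x → 2 * x / (j₀ : ℝ) ≤ 2 * x := fun x hx =>
    div_le_self (by positivity) (by linarith)
  refine ⟨?_, ?_, ?_, ?_, ?_⟩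
  · have := tail j₀ (by omega) (4 * K) (fun i : ℕ => ((CC (q + 1) (j₀ + i)).card : ℝ) *
      UU j₀ (j₀ + i + 1) ^ 2 *
      (UU j₀ (j₀ + i + 1) - UU j₀ (j₀ + i)) ^ (2 * (q + 1) + 1) / UU j₀ (j₀ + i) ^ (3 * (q + 1) + 2))
      (fun i => by
        obtain ⟨c1, c2, c3, c4, c5, c6, c7, c8⟩ := cell j₀ (j₀ + i) h₀ (by omega)
        have : 0 ≤ UU j₀ (j₀ + i) := by rw [c3]; positivity
        positivity)
      (fun i => by
        obtain ⟨c1, c2, c3, c4, c5, c6, c7, c8⟩ := cell j₀ (j₀ + i) h₀ (by omega)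
        rw [← c8]
        simp only [c3] at c6 c7 ⊢
        exact t1 c1 c2 c4 c5 c6 c7 (Nat.cast_nonneg _) (card_up q (j₀ + i) (by omega)))
    refine ⟨this.1, this.2.trans ((hj1 _ (by positivity)).trans ?_)⟩
    linarith
  · have := tail j₀ (by omega) L (fun i : ℕ => (UU j₀ (j₀ + i + 1) - UU j₀ (j₀ + i)) *
      UU j₀ (j₀ + i + 1) ^ (3 * (q + 1) + 2) *
      (UU j₀ (j₀ + i + 1) - UU j₀ (j₀ + i)) ^ (2 * (q + 1) + 1) / UU j₀ (j₀ + i) ^ (3 * (q + 1) + 2))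
      (fun i => by
        obtain ⟨c1, c2, c3, c4, c5, c6, c7, c8⟩ := cell j₀ (j₀ + i) h₀ (by omega)
        have : 0 ≤ UU j₀ (j₀ + i) := by rw [c3]; positivity
        positivity)
      (fun i => by
        obtain ⟨c1, c2, c3, c4, c5, c6, c7, c8⟩ := cell j₀ (j₀ + i) h₀ (by omega)
        rw [← c8]
        simp only [c3] at c6 c7 ⊢
        exact t2 c1 c2 c4 c5 c6 c7)
    refine ⟨this.1, this.2.trans ?_⟩
    gcongr
    linarith
  · have := tail j₀ (by omega) (4 * K) (fun i : ℕ => ((CC (q + 1) (j₀ + i)).card : ℝ) *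
      UU j₀ (j₀ + i + 1) ^ 2 *
      (UU j₀ (j₀ + i + 1) - UU j₀ (j₀ + i)) ^ (4 * (q + 1) + 4))
      (fun i => by
        obtain ⟨c1, c2, c3, c4, c5, c6, c7, c8⟩ := cell j₀ (j₀ + i) h₀ (by omega)
        positivity)
      (fun i => by
        obtain ⟨c1, c2, c3, c4, c5, c6, c7, c8⟩ := cell j₀ (j₀ + i) h₀ (by omega)
        rw [← c8]
        exact t3 c1 c2 c4 c5 c6 c7 (Nat.cast_nonneg _) (card_up q (j₀ + i) (by omega)))
    refine ⟨this.1, this.2.trans ((hj1 _ (by positivity)).trans ?_)⟩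
    linarith
  · have := tail j₀ (by omega) L (fun i : ℕ => (UU j₀ (j₀ + i + 1) - UU j₀ (j₀ + i)) *
      UU j₀ (j₀ + i + 1) ^ (3 * (q + 1) + 2) *
      (UU j₀ (j₀ + i + 1) - UU j₀ (j₀ + i)) ^ (4 * (q + 1) + 4))
      (fun i => by
        obtain ⟨c1, c2, c3, c4, c5, c6, c7, c8⟩ := cell j₀ (j₀ + i) h₀ (by omega)
        positivity)
      (fun i => by
        obtain ⟨c1, c2, c3, c4, c5, c6, c7, c8⟩ := cell j₀ (j₀ + i) h₀ (by omega)
        rw [← c8]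
        exact t4 c1 c2 c4 c5 c6 c7)
    refine ⟨this.1, this.2.trans ?_⟩
    gcongr
    linarith
  · intro j hj
    obtain ⟨c1, c2, c3, c4, c5, c6, c7, c8⟩ := cell j₀ j h₀ hj
    have hj' : (j₀:ℝ) ≤ j := by exact_mod_cast hj
    have hl0 : 1 ≤ Real.log j₀ := by
      rw [Real.le_log_iff_exp_le (by linarith)]
      exact (Real.exp_one_lt_three.le).trans h3
    have hdiv : (Real.sqrt j / Real.sqrt j₀) ^ 2 = (j : ℝ) / j₀ := by
      rw [div_pow, Real.sq_sqrt (Nat.cast_nonneg _), Real.sq_sqrt (Nat.cast_nonneg _)]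
    have hlog : Real.log j ≤ (Real.sqrt j / Real.sqrt j₀) ^ 2 * Real.log j₀ := by
      rw [hdiv]
      have e1 : Real.log j = Real.log j₀ + Real.log ((j : ℝ) / j₀) := by
        rw [Real.log_div (by linarith) (by linarith)]
        ring
      have e2 : Real.log ((j : ℝ) / j₀) ≤ (j : ℝ) / j₀ - 1 :=
        Real.log_le_sub_one_of_pos (div_pos (by linarith) (by linarith))
      have e3 : 1 ≤ (j : ℝ) / j₀ := (one_le_div (by linarith)).2 hj'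
      rw [e1]
      nlinarith
    have key := t5 (q := q) (c := ((CC (q + 1) j).card : ℝ)) (lj := Real.log j)
      (l0 := Real.log j₀) hq c1 c2 c4 c5 c6 c7 (card_lo q j) (by linarith)
      (Real.log_nonneg (by linarith)) hlog
    rw [Real.sq_sqrt (Nat.cast_nonneg _), ← c3] at key
    refine key.trans ?_
    have hlog0 : (0:ℝ) ≤ Real.log j₀ := by linarith
    gcongr
    linarith

end Pool.Agent.H782R3.BCSum
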